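import Pool.Agent.L7h62.SQ.Stm3

/-!
# Project SQ, part GEN
-/

set_option autoImplicit false
set_option linter.unusedSectionVars false

namespace Pool.Agent.L7h66.SQ

open Module NumberField IsDedekindDomain
open Pool.Agent.TeamU (Over Unr)
open Pool.Agent.L7h62.SQ
open scoped nonZeroDivisors

variable {F H : Type} [Field F] [NumberField F] [Field H] [NumberField H] [Algebra F H]

/-- The action of `c` on the integers. -/
noncomputable abbrev sg (c : H ≃ₐ[F] H) : 𝓞 H ≃+* 𝓞 H :=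
  RingOfIntegers.mapRingEquiv (c : H ≃+* H)

lemma sg_coe (c : H ≃ₐ[F] H) (x : 𝓞 H) : ((sg c x : 𝓞 H) : H) = c (x : H) := rfl

lemma sg_alg (c : H ≃ₐ[F] H) (a : 𝓞 F) :
    sg c (algebraMap (𝓞 F) (𝓞 H) a) = algebraMap (𝓞 F) (𝓞 H) a := by
  apply RingOfIntegers.ext
  rw [sg_coe]
  exact c.commutes (a : F)

lemma sg_map (c : H ≃ₐ[F] H) (I : Ideal (𝓞 F)) :
    (I.map (algebraMap (𝓞 F) (𝓞 H))).map (sg c) = I.map (algebraMap (𝓞 F) (𝓞 H)) := by
  have h1 : ((sg c : 𝓞 H ≃+* 𝓞 H) : 𝓞 H →+* 𝓞 H).comp (algebraMap (𝓞 F) (𝓞 H)) =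
      algebraMap (𝓞 F) (𝓞 H) := by
    ext1 a
    exact sg_alg c a
  have h2 := Ideal.map_map (I := I) (algebraMap (𝓞 F) (𝓞 H)) ((sg c : 𝓞 H ≃+* 𝓞 H) : 𝓞 H →+* 𝓞 H)
  rw [h1] at h2
  exact h2

lemma cc (h2 : finrank F H = 2) (c : H ≃ₐ[F] H) (hc : c ≠ 1) (x : H) : c (c x) = x := by
  have : FiniteDimensional F H := FiniteDimensional.of_finrank_pos (by omega)
  have h3 : Fintype.card (H ≃ₐ[F] H) ≤ 2 := h2 ▸ AlgEquiv.card_le
  have h4 : 1 < Fintype.card (H ≃ₐ[F] H) := Fintype.one_lt_card_iff.2 ⟨c, 1, hc⟩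
  have h5 : c ^ 2 = 1 := by
    have h6 := pow_card_eq_one (x := c)
    rwa [show Fintype.card (H ≃ₐ[F] H) = 2 by omega] at h6
  have h7 := congrArg (fun g : H ≃ₐ[F] H => g x) h5
  simpa [pow_two] using h7

lemma fixed (h2 : finrank F H = 2) (c : H ≃ₐ[F] H) (hc : c ≠ 1) (w : H) (hw : c w = w) :
    ∃ a : F, algebraMap F H a = w := by
  have := Subalgebra.isSimpleOrder_of_finrank_prime F H (h2 ▸ Nat.prime_two)
  rcases eq_bot_or_eq_top (AlgHom.equalizer (c : H →ₐ[F] H) (AlgHom.id F H)) with h | h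
  · have h3 : w ∈ (⊥ : Subalgebra F H) := by rw [← h]; exact hw
    exact Algebra.mem_bot.1 h3
  · exfalso
    apply hc
    ext x
    have h3 : x ∈ (⊤ : Subalgebra F H) := Algebra.mem_top
    rw [← h] at h3
    exact h3

lemma core (h2 : finrank F H = 2) (c : H ≃ₐ[F] H) (hc : c ≠ 1)
    (hu : ∀ u : (𝓞 H)ˣ, ((u : 𝓞 H) : H) * c ((u : 𝓞 H) : H) = 1 →
      ∃ v : (𝓞 H)ˣ, ((u : 𝓞 H) : H) = ((v : 𝓞 H) : H) / c ((v : 𝓞 H) : H))
    (A B : Ideal (𝓞 H)) (hA : A ≠ 0) (hsA : A.map (sg c) = A) (hsB : B.map (sg c) = B)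
    (x y : 𝓞 H) (hx : x ≠ 0) (hy : y ≠ 0) (h : Ideal.span {x} * A = Ideal.span {y} * B) :
    ∃ a b : 𝓞 F, a ≠ 0 ∧ b ≠ 0 ∧
      Ideal.span {algebraMap (𝓞 F) (𝓞 H) a} * A =
        Ideal.span {algebraMap (𝓞 F) (𝓞 H) b} * B := by
  have h' : Ideal.span {sg c x} * A = Ideal.span {sg c y} * B := by
    have h3 := congrArg (Ideal.map (sg c)) h
    rwa [Ideal.map_mul, Ideal.map_mul, Ideal.map_span, Ideal.map_span, Set.image_singleton,
      Set.image_singleton, hsA, hsB] at h3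
  have h3 : Ideal.span {x * sg c y} * A = Ideal.span {sg c x * y} * A := by
    rw [← Ideal.span_singleton_mul_span_singleton, ← Ideal.span_singleton_mul_span_singleton]
    calc Ideal.span {x} * Ideal.span {sg c y} * A
        = Ideal.span {sg c y} * (Ideal.span {x} * A) := by ring
      _ = Ideal.span {sg c y} * (Ideal.span {y} * B) := by rw [h]
      _ = Ideal.span {y} * (Ideal.span {sg c y} * B) := by ring
      _ = Ideal.span {y} * (Ideal.span {sg c x} * A) := by rw [h']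
      _ = Ideal.span {sg c x} * Ideal.span {y} * A := by ring
  have h4 := mul_right_cancel₀ hA h3
  obtain ⟨u, hu1⟩ := Ideal.span_singleton_eq_span_singleton.1 h4
  have E1 : (x : H) * c (y : H) * ((u : 𝓞 H) : H) = c (x : H) * (y : H) := by
    have h5 := congrArg (algebraMap (𝓞 H) H) hu1
    rw [map_mul, map_mul, map_mul] at h5
    exact h5
  have hX : (x : H) ≠ 0 := by simpa using hx
  have hY : (y : H) ≠ 0 := by simpa using hy
  have hcX : c (x : H) ≠ 0 := by simpa using hx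
  have hcY : c (y : H) ≠ 0 := by simpa using hy
  have E2 : c (x : H) * (y : H) * c ((u : 𝓞 H) : H) = (x : H) * c (y : H) := by
    have h5 := congrArg c E1
    simpa only [map_mul, cc h2 c hc] using h5
  have E3 : ((u : 𝓞 H) : H) * c ((u : 𝓞 H) : H) = 1 := by
    have h5 : ((x : H) * c (y : H)) * (((u : 𝓞 H) : H) * c ((u : 𝓞 H) : H)) =
        ((x : H) * c (y : H)) * 1 := by
      rw [mul_one, ← mul_assoc, E1, E2]
    exact mul_left_cancel₀ (mul_ne_zero hX hcY) h5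
  obtain ⟨v, hv⟩ := hu u E3
  have hV : ((v : 𝓞 H) : H) ≠ 0 := by simp
  have hcV : c ((v : 𝓞 H) : H) ≠ 0 := by simp
  rw [hv] at E1
  have E4 : (x : H) * ((v : 𝓞 H) : H) * c (y : H) =
      c (x : H) * c ((v : 𝓞 H) : H) * (y : H) := by
    field_simp at E1
    linear_combination E1
  obtain ⟨a0, ha0⟩ := fixed h2 c hc ((x : H) * ((v : 𝓞 H) : H) / (y : H)) (by
    rw [map_div₀, map_mul, div_eq_div_iff hcY hY]
    exact E4.symm)
  obtain ⟨a, b, hb, hab⟩ := IsFractionRing.div_surjective (A := 𝓞 F) a0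
  have hb0 : b ≠ 0 := nonZeroDivisors.ne_zero hb
  have hbH : algebraMap F H (b : F) ≠ 0 := by simpa using hb0
  have hw0 : (x : H) * ((v : 𝓞 H) : H) / (y : H) ≠ 0 := div_ne_zero (mul_ne_zero hX hV) hY
  have ha : a ≠ 0 := by
    rintro rfl
    rw [map_zero, zero_div] at hab
    rw [← hab, map_zero] at ha0
    exact hw0 ha0.symm
  have E5 : algebraMap F H (a : F) / algebraMap F H (b : F) =
      (x : H) * ((v : 𝓞 H) : H) / (y : H) := by
    rw [← ha0, ← hab, map_div₀]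
  have E6 : algebraMap F H (a : F) * (y : H) =
      (x : H) * ((v : 𝓞 H) : H) * algebraMap F H (b : F) := by
    rwa [div_eq_div_iff hbH hY] at E5
  have E7 : algebraMap (𝓞 F) (𝓞 H) a * y = x * (v : 𝓞 H) * algebraMap (𝓞 F) (𝓞 H) b := by
    apply RingOfIntegers.ext
    show algebraMap (𝓞 H) H _ = algebraMap (𝓞 H) H _
    rw [map_mul, map_mul, map_mul]
    exact E6
  refine ⟨a, b, ha, hb0, ?_⟩
  have hspy : Ideal.span {y} ≠ 0 := by
    rw [Ne, Ideal.zero_eq_bot, Ideal.span_singleton_eq_bot]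
    exact hy
  apply mul_left_cancel₀ hspy
  have hv1 : Ideal.span {(v : 𝓞 H)} = 1 := by
    rw [Ideal.one_eq_top, Ideal.span_singleton_eq_top]
    exact v.isUnit
  calc Ideal.span {y} * (Ideal.span {algebraMap (𝓞 F) (𝓞 H) a} * A)
      = Ideal.span {algebraMap (𝓞 F) (𝓞 H) a * y} * A := by
        rw [← Ideal.span_singleton_mul_span_singleton]; ring
    _ = Ideal.span {x * (v : 𝓞 H) * algebraMap (𝓞 F) (𝓞 H) b} * A := by rw [E7]
    _ = Ideal.span {(v : 𝓞 H)} * Ideal.span {algebraMap (𝓞 F) (𝓞 H) b} *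
        (Ideal.span {x} * A) := by
        rw [← Ideal.span_singleton_mul_span_singleton, ← Ideal.span_singleton_mul_span_singleton]
        ring
    _ = Ideal.span {algebraMap (𝓞 F) (𝓞 H) b} * (Ideal.span {y} * B) := by
        rw [hv1, one_mul, h]
    _ = Ideal.span {y} * (Ideal.span {algebraMap (𝓞 F) (𝓞 H) b} * B) := by ring

lemma map_inj {I J : Ideal (𝓞 F)}
    (h : I.map (algebraMap (𝓞 F) (𝓞 H)) = J.map (algebraMap (𝓞 F) (𝓞 H))) : I = J := by
  rw [← Ideal.comap_map_eq_self_of_faithfullyFlat (B := 𝓞 H) I, h,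
    Ideal.comap_map_eq_self_of_faithfullyFlat]

lemma ram (h2 : finrank F H = 2) (P : HeightOneSpectrum (𝓞 H)) (hP : ¬ Unr F P) :
    ∃ v : HeightOneSpectrum (𝓞 F),
      v.asIdeal.map (algebraMap (𝓞 F) (𝓞 H)) = P.asIdeal ^ 2 := by
  unfold Unr at hP
  push Not at hP
  obtain ⟨v, hov, a, ha⟩ := hP
  have : P.asIdeal.LiesOver v.asIdeal := ⟨hov.symm⟩
  have h3 := HeightOneSpectrum.valuation_liesOver H v P a
  have h4 : v.asIdeal.ramificationIdx' P.asIdeal ≠ 1 := by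
    intro h5
    rw [h5, pow_one] at h3
    exact ha h3.symm
  have h5 : v.asIdeal.ramificationIdx' P.asIdeal ≠ 0 :=
    Ideal.IsDedekindDomain.ramificationIdx'_ne_zero_of_liesOver P.asIdeal v.ne_bot
  have h6 : v.asIdeal.map (algebraMap (𝓞 F) (𝓞 H)) ≤ P.asIdeal ^ 2 :=
    Ideal.le_pow_of_le_ramificationIdx' (by omega)
  refine ⟨v, ?_⟩
  obtain ⟨Q, hQ⟩ := Ideal.dvd_iff_le.2 h6
  have h7 : Ideal.relNorm (𝓞 F) P.asIdeal ≤ v.asIdeal :=
    (Ideal.relNorm_le_comap (𝓞 F) P.asIdeal).trans hov.le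
  obtain ⟨J, hJ⟩ := Ideal.dvd_iff_le.2 h7
  have hfr : Module.finrank (𝓞 F) (𝓞 H) = 2 := by
    rw [← IsFractionRing.finrank_eq (𝓞 F) F (𝓞 H) H, h2]
  have h8 := congrArg (Ideal.relNorm (𝓞 F)) hQ
  rw [Ideal.relNorm_algebraMap, hfr, map_mul, map_pow, hJ] at h8
  have hv0 : v.asIdeal ^ 2 ≠ 0 := pow_ne_zero _ v.ne_bot
  have h9 : J ^ 2 * Ideal.relNorm (𝓞 F) Q = 1 := by
    apply mul_left_cancel₀ hv0
    rw [mul_one]
    calc v.asIdeal ^ 2 * (J ^ 2 * Ideal.relNorm (𝓞 F) Q)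
        = (v.asIdeal * J) ^ 2 * Ideal.relNorm (𝓞 F) Q := by ring
      _ = v.asIdeal ^ 2 := h8.symm
  have h10 : Ideal.relNorm (𝓞 F) Q = ⊤ := by
    rw [← Ideal.one_eq_top]
    exact (mul_eq_one.1 h9).2
  have h11 : Q = ⊤ := by
    have h12 := Ideal.relNorm_le_comap (𝓞 F) Q
    rw [h10, top_le_iff] at h12
    exact (Ideal.comap_eq_top_iff).1 h12
  rw [hQ, h11, ← Ideal.one_eq_top, mul_one]

theorem s_GEN : S_GEN := by
  intro F H _ _ _ _ _ h2 c hc hu ⟨P, hP⟩
  obtain ⟨v, hv⟩ := ram h2 P hP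
  set φ := ClassGroup.extendedHom (𝓞 F) (𝓞 H) with hφ
  have hinj : Function.Injective φ := by
    intro C D hCD
    obtain ⟨I, rfl⟩ := ClassGroup.mk0_surjective C
    obtain ⟨J, rfl⟩ := ClassGroup.mk0_surjective D
    rw [hφ, ClassGroup.extendedHom_mk0, ClassGroup.extendedHom_mk0,
      ClassGroup.mk0_eq_mk0_iff] at hCD
    obtain ⟨x, y, hx, hy, h⟩ := hCD
    obtain ⟨a, b, ha, hb, hab⟩ := core h2 c hc hu
      ((ClassGroup.extendedIdeal (𝓞 F) (𝓞 H) I : (Ideal (𝓞 H))⁰) : Ideal (𝓞 H))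
      ((ClassGroup.extendedIdeal (𝓞 F) (𝓞 H) J : (Ideal (𝓞 H))⁰) : Ideal (𝓞 H))
      (nonZeroDivisors.ne_zero (ClassGroup.extendedIdeal (𝓞 F) (𝓞 H) I).2)
      (sg_map c _) (sg_map c _) x y hx hy h
    rw [ClassGroup.mk0_eq_mk0_iff]
    refine ⟨a, b, ha, hb, map_inj (H := H) ?_⟩
    rw [Ideal.map_mul, Ideal.map_mul, Ideal.map_span, Ideal.map_span, Set.image_singleton,
      Set.image_singleton]
    exact hab
  have hP0 : P.asIdeal ∈ (Ideal (𝓞 H))⁰ := mem_nonZeroDivisors_of_ne_zero P.ne_bot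
  have hv0 : v.asIdeal ∈ (Ideal (𝓞 F))⁰ := mem_nonZeroDivisors_of_ne_zero v.ne_bot
  -- the class of `P`
  set g : ClassGroup (𝓞 H) := ClassGroup.mk0 ⟨P.asIdeal, hP0⟩ with hg
  have hsP : P.asIdeal.map (sg c) = P.asIdeal := by
    have h3 := sg_map c v.asIdeal
    rw [hv, Ideal.map_pow] at h3
    have h4 : P.asIdeal.map (sg c) ∣ P.asIdeal ^ 2 := by
      rw [← h3]; exact dvd_pow_self _ two_ne_zero
    have : (P.asIdeal.map (sg c)).IsMaximal := by
      have := P.isMaximal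
      exact Ideal.map_isMaximal_of_equiv (sg c)
    have h5 : P.asIdeal ^ 2 ≤ P.asIdeal.map (sg c) := Ideal.dvd_iff_le.1 h4
    have h6 : P.asIdeal ≤ P.asIdeal.map (sg c) := by
      intro z hz
      have h7 : z ^ 2 ∈ P.asIdeal.map (sg c) := h5 (Ideal.pow_mem_pow hz 2)
      exact Ideal.IsPrime.mem_of_pow_mem inferInstance 2 h7
    exact ((P.isMaximal).eq_of_le (Ideal.IsPrime.ne_top inferInstance) h6).symm
  have hg1 : g ∉ φ.range := by
    rintro ⟨C, hC⟩
    obtain ⟨I, rfl⟩ := ClassGroup.mk0_surjective C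
    rw [hφ, ClassGroup.extendedHom_mk0, hg, ClassGroup.mk0_eq_mk0_iff] at hC
    obtain ⟨x, y, hx, hy, h⟩ := hC
    obtain ⟨a, b, ha, hb, hab⟩ := core h2 c hc hu
      ((ClassGroup.extendedIdeal (𝓞 F) (𝓞 H) I : (Ideal (𝓞 H))⁰) : Ideal (𝓞 H)) P.asIdeal
      (nonZeroDivisors.ne_zero (ClassGroup.extendedIdeal (𝓞 F) (𝓞 H) I).2)
      (sg_map c _) hsP x y hx hy h
    have h3 : (Ideal.span {a} * (I : Ideal (𝓞 F))) ^ 2 = Ideal.span {b} ^ 2 * v.asIdeal := by
      apply map_inj (H := H)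
      rw [Ideal.map_pow, Ideal.map_mul, Ideal.map_mul, Ideal.map_pow, Ideal.map_span,
        Ideal.map_span, Set.image_singleton, Set.image_singleton, hv, ← mul_pow]
      congr 1
    have hI0 : Ideal.span {a} * (I : Ideal (𝓞 F)) ≠ 0 := by
      refine mul_ne_zero ?_ (nonZeroDivisors.ne_zero I.2)
      rw [Ne, Ideal.zero_eq_bot, Ideal.span_singleton_eq_bot]
      exact ha
    have hb0 : Ideal.span {b} ≠ 0 := by
      rw [Ne, Ideal.zero_eq_bot, Ideal.span_singleton_eq_bot]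
      exact hb
    classical
    have h4 := congrArg (fun K => Multiset.count v.asIdeal
      (UniqueFactorizationMonoid.normalizedFactors K)) h3
    beta_reduce at h4
    rw [UniqueFactorizationMonoid.normalizedFactors_pow,
      UniqueFactorizationMonoid.normalizedFactors_mul (pow_ne_zero _ hb0) v.ne_bot,
      UniqueFactorizationMonoid.normalizedFactors_pow,
      UniqueFactorizationMonoid.normalizedFactors_irreducible v.irreducible] at h4
    simp only [Multiset.count_nsmul, Multiset.count_add, normalize_eq,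
      Multiset.count_singleton_self] at h4
    omega
  have hg2 : g ^ 2 ∈ φ.range := by
    refine ⟨ClassGroup.mk0 ⟨v.asIdeal, hv0⟩, ?_⟩
    rw [hφ, ClassGroup.extendedHom_mk0, hg, ← map_pow]
    congr 1
    apply Subtype.ext
    exact hv
  have h3 : 2 ∣ Nat.card (ClassGroup (𝓞 H) ⧸ φ.range) := by
    have h4 : orderOf (QuotientGroup.mk g : ClassGroup (𝓞 H) ⧸ φ.range) = 2 := by
      apply orderOf_eq_prime
      · rw [← QuotientGroup.mk_pow, QuotientGroup.eq_one_iff]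
        exact hg2
      · rw [Ne, QuotientGroup.eq_one_iff]
        exact hg1
    rw [← h4]
    exact orderOf_dvd_natCard _
  have h4 := Subgroup.card_eq_card_quotient_mul_card_subgroup φ.range
  have h5 : Nat.card φ.range = classNumber F := by
    rw [← Nat.card_congr (MonoidHom.ofInjective hinj).toEquiv, Nat.card_eq_fintype_card]
    rfl
  have h6 : Nat.card (ClassGroup (𝓞 H)) = classNumber H := by
    rw [Nat.card_eq_fintype_card]
    rfl
  rw [h6, h5] at h4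
  rw [h4]
  exact mul_dvd_mul_right h3 _

end Pool.Agent.L7h66.SQ
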